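import Pool.Agent.helper70.QSD.SpecB

/-!
# qsd:EVP (MP_7a3aac_co): values at an invariant place
-/

set_option linter.unusedVariables false

namespace Pool.Agent.helper70.QSD

open Pool.Agent.helper53.AU
open scoped Classical IntermediateField Polynomial

noncomputable section

section
variable {k F : Type} [Field k] [Field F] [Algebra k F]

/-- `a` is the value of `f` at `P` -/
def EVP_R (P : Place k F) (f : F) (a : k) : Prop := P.Ge 1 (f - algebraMap k F a)

theorem EVP_R_const (P : Place k F) (c : k) : EVP_R P (algebraMap k F c) c := by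
  unfold EVP_R
  rw [sub_self]
  exact P.ge_zero 1

theorem EVP_R_add {P : Place k F} {f g : F} {a b : k} (hf : EVP_R P f a) (hg : EVP_R P g b) :
    EVP_R P (f + g) (a + b) := by
  unfold EVP_R at *
  have e : f + g - algebraMap k F (a + b) = (f - algebraMap k F a) + (g - algebraMap k F b) := by
    rw [map_add]
    ring
  rw [e]
  exact hf.add hg

theorem EVP_R_mul {P : Place k F} {f g : F} {a b : k} (hf : EVP_R P f a) (hg : EVP_R P g b) :
    EVP_R P (f * g) (a * b) := by
  unfold EVP_R at *
  have e : f * g - algebraMap k F (a * b) =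
      ((f - algebraMap k F a) * (g - algebraMap k F b) + algebraMap k F a * (g - algebraMap k F b)) +
        algebraMap k F b * (f - algebraMap k F a) := by
    rw [map_mul]
    ring
  rw [e]
  have h1 : P.Ge 1 ((f - algebraMap k F a) * (g - algebraMap k F b)) :=
    (hf.mul hg).mono (by norm_num)
  exact (h1.add (hg.const_mul a)).add (hf.const_mul b)

theorem EVP_R_pow {P : Place k F} {f : F} {a : k} (hf : EVP_R P f a) (n : ℕ) :
    EVP_R P (f ^ n) (a ^ n) := by
  induction n with
  | zero =>
    have := EVP_R_const P (1 : k)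
    rw [map_one] at this
    simpa using this
  | succ n ih =>
    rw [pow_succ, pow_succ]
    exact EVP_R_mul ih hf

theorem EVP_R_unique {P : Place k F} {f : F} {a b : k} (ha : EVP_R P f a) (hb : EVP_R P f b) :
    a = b := by
  by_contra hne
  have h0 : a - b ≠ 0 := sub_ne_zero.2 hne
  have h1 : P.Ge 1 (algebraMap k F (a - b)) := by
    have e : algebraMap k F (a - b) = (f - algebraMap k F b) - (f - algebraMap k F a) := by
      rw [map_sub]
      ring
    rw [e]
    exact Place.Ge.sub hb ha
  have h2 : algebraMap k F (a - b) ≠ 0 := by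
    rw [Ne, map_eq_zero]
    exact h0
  have h3 := h1.le h2
  rw [P.ord_const _ h0] at h3
  omega

theorem EVP_R_aeval {P : Place k F} {s : F} {c : k} (h : EVP_R P s c) (a : k[X]) :
    EVP_R P (Polynomial.aeval s a) (Polynomial.aeval c a) := by
  induction a using Polynomial.induction_on' with
  | add p q hp hq =>
    rw [map_add, map_add]
    exact EVP_R_add hp hq
  | monomial n a =>
    rw [Polynomial.aeval_monomial, Polynomial.aeval_monomial]
    exact EVP_R_mul (EVP_R_const P a) (EVP_R_pow h n)

theorem EVP_R_ev {P : Place k F} {s z : F} {c b : k} (h : EVP_R P s c) (h' : EVP_R P z b)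
    (G : k[X][X]) : EVP_R P (ev s z G) (ev c b G) := by
  unfold ev
  induction G using Polynomial.induction_on' with
  | add p q hp hq =>
    rw [Polynomial.eval₂_add, Polynomial.eval₂_add]
    exact EVP_R_add hp hq
  | monomial n a =>
    rw [Polynomial.eval₂_monomial, Polynomial.eval₂_monomial]
    exact EVP_R_mul (EVP_R_aeval h a) (EVP_R_pow h' n)

theorem EVP_R_alpha {P : Place k F} {α : F ≃+* F} (hord : ∀ f : F, P.ord (α f) = P.ord f) {q : ℕ}
    (hα : InvFr k q α) {f : F} {a : k} (h : EVP_R P f a) :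
    ∃ a' : k, EVP_R P (α f) a' ∧ a' ^ q = a := by
  obtain ⟨a', h1, h2⟩ := hα a
  refine ⟨a', ?_, h2⟩
  unfold EVP_R at *
  rw [← h1, ← map_sub]
  rcases h with h | h
  · left
    rw [h, map_zero]
  · right
    rw [hord]
    exact h

end

theorem EVP (hQV1 : QV1_stmt) : EVP_stmt := by
  intro k F _ _ _ _ hFF P₀ s z hs hz
  obtain ⟨c, hc⟩ := hQV1 k F hFF P₀ s hs
  obtain ⟨b, hb⟩ := hQV1 k F hFF P₀ z hz
  refine ⟨c, b, hc, fun G => EVP_R_ev hc hb G, ?_⟩
  intro q α hα hord hαs
  obtain ⟨c', h1, h2⟩ := EVP_R_alpha hord hα (show EVP_R P₀ s c from hc)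
  rw [hαs] at h1
  have h3 : c' = c := EVP_R_unique h1 hc
  subst h3
  refine ⟨h2, ?_⟩
  intro G h hG hh
  obtain ⟨b', h4, h5⟩ := EVP_R_alpha hord hα (show EVP_R P₀ z b from hb)
  have h6 : EVP_R P₀ (α z * Polynomial.aeval s h) (b' * Polynomial.aeval c' h) :=
    EVP_R_mul h4 (EVP_R_aeval hc h)
  rw [hG] at h6
  have h7 := EVP_R_unique h6 (EVP_R_ev hc hb G)
  rw [Polynomial.coe_aeval_eq_eval] at h7
  rw [← h7, mul_div_assoc, div_self hh, mul_one]
  exact h5

end

end Pool.Agent.helper70.QSD
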